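import Mathlib
import Pool.Agent.TH244.L.Arrange

set_option autoImplicit false

/-!
# Not every `h` in `G` has property (L)
-/

namespace Pool.Agent.Results.MP_0cd561_an.PropertyLFails

open MeasureTheory Set Filter Topology Complex
open scoped Real ENNReal ContDiff
open Pool.Agent.TH244.L

/-- There is `h ∈ G` (even a smooth diffeomorphism at bounded distance from the identity) without
property (L): there are `f k` in `BMOA` of norm one such that the norms of `P V_h (f k)` tend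
to zero. -/
theorem result : ∃ h : ℝ → ℝ, InG h ∧ ContDiff ℝ ∞ h ∧ (∀ x, 0 < deriv h x) ∧
    (∀ x, |h x - x| ≤ 2 * π) ∧ ¬ PropertyL h ∧
    ∃ f q : ℕ → ℝ → ℂ, (∀ k, InBMOA (f k) ∧ bmoNorm (f k) = 1 ∧ IsProj (f k ∘ h) (q k)) ∧
      Tendsto (fun k => bmoNorm (q k)) atTop (𝓝 0) := by
  obtain ⟨h, c, hG, hs, hd, hD, hc, hk⟩ := main_construction
  choose f q hf hq hqs hfl using hk
  have hbound : Tendsto (fun k : ℕ => ENNReal.ofReal (9 * (1 / ((k : ℝ) + 1)))) atTop (𝓝 0) := by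
    rw [← ENNReal.ofReal_zero]
    apply ENNReal.tendsto_ofReal
    have := (tendsto_one_div_add_atTop_nhds_zero_nat (𝕜 := ℝ)).const_mul 9
    simpa using this
  refine ⟨h, hG, hs, hd, hD, ?_, ?_⟩
  · rintro ⟨c', hc', hL⟩
    have h1 : ∀ k : ℕ, ENNReal.ofReal c' * ENNReal.ofReal c
        ≤ ENNReal.ofReal (9 * (1 / ((k : ℝ) + 1))) := fun k =>
      ((mul_le_mul_right (hfl k) _).trans (hL (f k) (q k) (hf k) (hq k))).trans (hqs k)
    have h2 : ENNReal.ofReal c' * ENNReal.ofReal c ≤ 0 := ge_of_tendsto' hbound h1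
    rw [← ENNReal.ofReal_mul hc'.le, nonpos_iff_eq_zero, ENNReal.ofReal_eq_zero] at h2
    have : 0 < c' * c := by positivity
    linarith
  · -- normalisation
    set N : ℕ → ℝ := fun k => (bmoNorm (f k)).toReal with hN
    have hfin : ∀ k, bmoNorm (f k) ≠ ⊤ := fun k => (hf k).1.2.ne
    have hNc : ∀ k, c ≤ N k := fun k => by
      have := ENNReal.toReal_mono (hfin k) (hfl k)
      rwa [ENNReal.toReal_ofReal hc.le] at this
    have hN0 : ∀ k, 0 < N k := fun k => hc.trans_le (hNc k)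
    have hNe : ∀ k, ENNReal.ofReal (N k) = bmoNorm (f k) := fun k => ENNReal.ofReal_toReal (hfin k)
    have hnorm : ∀ k, ‖(((N k)⁻¹ : ℝ) : ℂ)‖ = (N k)⁻¹ := fun k => by
      rw [Complex.norm_real, Real.norm_eq_abs, abs_of_pos (inv_pos.2 (hN0 k))]
    refine ⟨fun k x => (((N k)⁻¹ : ℝ) : ℂ) * f k x, fun k x => (((N k)⁻¹ : ℝ) : ℂ) * q k x,
      fun k => ⟨inBMOA_smul (hf k) _, ?_, isProj_smul (hq k) _⟩, ?_⟩
    · rw [bmoNorm_smul, hnorm, ← hNe, ← ENNReal.ofReal_mul (inv_pos.2 (hN0 k)).le,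
        inv_mul_cancel₀ (hN0 k).ne', ENNReal.ofReal_one]
    · have h1 : Tendsto (fun k : ℕ => ENNReal.ofReal c⁻¹
          * ENNReal.ofReal (9 * (1 / ((k : ℝ) + 1)))) atTop (𝓝 0) := by
        have := ENNReal.Tendsto.const_mul hbound (a := ENNReal.ofReal c⁻¹)
          (Or.inr ENNReal.ofReal_ne_top)
        rwa [mul_zero] at this
      refine tendsto_of_tendsto_of_tendsto_of_le_of_le tendsto_const_nhds h1
        (fun k => zero_le) fun k => ?_
      rw [bmoNorm_smul, hnorm]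
      exact mul_le_mul' (ENNReal.ofReal_le_ofReal (inv_anti₀ hc (hNc k))) (hqs k)

end Pool.Agent.Results.MP_0cd561_an.PropertyLFails
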